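import Mathlib

/-! LCM-groups and minimum covers of sets of finite groups. -/

namespace Q17.LCM

/-- `x` lies in `LCM(G)`: the order of `x ^ n * y` divides the least common multiple of the orders
of `x ^ n` and `y`, for all `n` and `y`. -/
def MemLCM {G : Type} [Group G] (x : G) : Prop :=
  ∀ (n : ℕ) (y : G), orderOf (x ^ n * y) ∣ Nat.lcm (orderOf (x ^ n)) (orderOf y)

/-- `G` is an LCM-group: `LCM(G) = G`. -/
def IsLCMGroup (G : Type) [Group G] : Prop := ∀ x : G, MemLCM x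

/-- `G` is an `𝓕`-cover: every member of `𝓕` is isomorphic to a subgroup of `G`. -/
def IsCover (𝓕 : Set FiniteGrp.{0}) (G : FiniteGrp.{0}) : Prop :=
  ∀ F ∈ 𝓕, ∃ H : Subgroup G, Nonempty (F ≃* H)

/-- `G` is a minimum `𝓕`-cover: an `𝓕`-cover of least possible order. -/
def IsMinimumCover (𝓕 : Set FiniteGrp.{0}) (G : FiniteGrp.{0}) : Prop :=
  IsCover 𝓕 G ∧ ∀ K : FiniteGrp.{0}, IsCover 𝓕 K → Nat.card G ≤ Nat.card K

/-- Two sets of finite groups are equal when their members are taken up to isomorphism. -/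
def SameUpToIso (𝓕 𝓖 : Set FiniteGrp.{0}) : Prop :=
  (∀ F ∈ 𝓕, ∃ K ∈ 𝓖, Nonempty (F ≃* K)) ∧ ∀ K ∈ 𝓖, ∃ F ∈ 𝓕, Nonempty (F ≃* K)

end Q17.LCM
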