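import Pool.Agent.Q17.LCM.Defs

/-! Minimum covers that are not LCM-groups. -/

namespace Q17.LCM

open Finset

/-- The wreath product of two cyclic groups of order `p`. -/
@[ext] structure W (p : ℕ) where
  /-- the base part -/
  f : ZMod p → ZMod p
  /-- the top part -/
  c : ZMod p

variable {p : ℕ}

instance : Mul (W p) := ⟨fun a b => ⟨fun t => a.f t + b.f (t - a.c), a.c + b.c⟩⟩
instance : One (W p) := ⟨⟨fun _ => 0, 0⟩⟩
instance : Inv (W p) := ⟨fun a => ⟨fun t => -a.f (t + a.c), -a.c⟩⟩

@[simp] lemma mul_f (a b : W p) (t : ZMod p) : (a * b).f t = a.f t + b.f (t - a.c) := rfl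
@[simp] lemma mul_c (a b : W p) : (a * b).c = a.c + b.c := rfl
@[simp] lemma one_f (t : ZMod p) : (1 : W p).f t = 0 := rfl
@[simp] lemma one_c : (1 : W p).c = 0 := rfl
@[simp] lemma inv_f (a : W p) (t : ZMod p) : (a⁻¹).f t = -a.f (t + a.c) := rfl
@[simp] lemma inv_c (a : W p) : (a⁻¹).c = -a.c := rfl

instance : Group (W p) :=
  Group.ofLeftAxioms
    (by
      intro a b c
      ext t
      · simp only [mul_f, mul_c]
        rw [sub_add_eq_sub_sub]
        ring
      · simp [add_assoc])
    (by intro a; ext t <;> simp)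
    (by
      intro a
      ext t
      · simp
      · simp)

/-- As a set, `W p` is `(ZMod p → ZMod p) × ZMod p`. -/
def equivProd : W p ≃ (ZMod p → ZMod p) × ZMod p where
  toFun a := (a.f, a.c)
  invFun q := ⟨q.1, q.2⟩
  left_inv _ := rfl
  right_inv _ := rfl

lemma pow_c (a : W p) (n : ℕ) : (a ^ n).c = n * a.c := by
  induction n with
  | zero => simp
  | succ n ih => rw [pow_succ, mul_c, ih]; push_cast; ring

lemma pow_f (a : W p) (n : ℕ) (t : ZMod p) : (a ^ n).f t = ∑ i ∈ range n, a.f (t - i * a.c) := by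
  induction n with
  | zero => simp
  | succ n ih => rw [pow_succ, mul_f, ih, pow_c, sum_range_succ]

section prime

variable [hp : Fact p.Prime]

instance : Finite (W p) := Finite.of_equiv _ equivProd.symm

lemma card_W : Nat.card (W p) = p ^ (p + 1) := by
  rw [Nat.card_congr (equivProd (p := p)), Nat.card_prod, Nat.card_pi]
  simp [Nat.card_zmod, pow_succ]

/-- the sum of the base part -/
def sumHom : W p →* Multiplicative (ZMod p) where
  toFun a := Multiplicative.ofAdd (∑ t, a.f t)
  map_one' := by simp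
  map_mul' := by
    intro a b
    rw [← ofAdd_add]
    congr 1
    simp only [mul_f, sum_add_distrib]
    congr 1
    exact Fintype.sum_equiv (Equiv.subRight a.c) _ _ (fun t => rfl)

/-- The subgroup of elements with sum zero. -/
def X (p : ℕ) [hp : Fact p.Prime] : Subgroup (W p) := (sumHom (p := p)).ker

lemma mem_X {a : W p} : a ∈ X p ↔ ∑ t, a.f t = 0 := by
  unfold X
  rw [MonoidHom.mem_ker]
  exact Iff.rfl

lemma sumHom_surj : Function.Surjective (sumHom (p := p)) := by
  intro s
  refine ⟨⟨Pi.single 0 (Multiplicative.toAdd s), 0⟩, ?_⟩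
  change Multiplicative.ofAdd (∑ t, (Pi.single 0 (Multiplicative.toAdd s) : ZMod p → ZMod p) t) = s
  rw [Finset.sum_pi_single']
  simp

lemma card_X : Nat.card (X p) = p ^ p := by
  have h1 : Nat.card (X p) * (X p).index = Nat.card (W p) := Subgroup.card_mul_index _
  have h2 : (X p).index = p := by
    unfold X
    rw [Subgroup.index_ker, MonoidHom.range_eq_top.mpr sumHom_surj]
    simp
  rw [h2, card_W, pow_succ] at h1
  exact Nat.eq_of_mul_eq_mul_right hp.out.pos h1

lemma X_pow (a : W p) (ha : a ∈ X p) : a ^ p = 1 := by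
  rw [mem_X] at ha
  ext t
  · rw [pow_f, one_f]
    by_cases hc : a.c = 0
    · simp [hc]
    · have h1 : ∑ i ∈ range p, a.f (t - i * a.c) = ∑ s : ZMod p, a.f s := by
        have e : ZMod p ≃ ZMod p :=
          { toFun := fun i => t - i * a.c
            invFun := fun s => (t - s) * a.c⁻¹
            left_inv := by intro i; field_simp; ring
            right_inv := by intro s; field_simp; ring }
        have h2 : ∑ i : ZMod p, a.f (t - i * a.c) = ∑ s : ZMod p, a.f s := by
          refine Fintype.sum_bijective (fun i => t - i * a.c) ?_ _ _ (fun i => rfl)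
          constructor
          · intro i j hij
            have h3 : i * a.c = j * a.c := by
              have : t - i * a.c = t - j * a.c := hij
              linear_combination -this
            exact mul_right_cancel₀ hc h3
          · intro s
            refine ⟨(t - s) * a.c⁻¹, ?_⟩
            change t - (t - s) * a.c⁻¹ * a.c = s
            field_simp
            ring
        rw [← h2]
        refine Finset.sum_bij (fun (i : ℕ) _ => (i : ZMod p)) (fun _ _ => mem_univ _) ?_ ?_ ?_
        · intro i hi j hj hij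
          rw [mem_range] at hi hj
          have := (ZMod.natCast_eq_natCast_iff' i j p).mp hij
          rwa [Nat.mod_eq_of_lt hi, Nat.mod_eq_of_lt hj] at this
        · intro s _
          exact ⟨s.val, mem_range.mpr (ZMod.val_lt s), ZMod.natCast_zmod_val s⟩
        · intro i _
          rfl
      rw [h1, ha]
  · rw [pow_c]
    simp

/-- a noncommuting pair in `X` -/
lemma X_noncomm (h3 : 3 ≤ p) : ∃ a b : X p, a * b ≠ b * a := by
  have h01 : (0 : ZMod p) ≠ 1 := zero_ne_one
  have hm10 : (-1 : ZMod p) ≠ 0 := by simp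
  have hm11 : (-1 : ZMod p) ≠ 1 := by
    intro h
    have h2 : (2 : ZMod p) = 0 := by linear_combination -h
    have h2' : ((2 : ℕ) : ZMod p) = 0 := by exact_mod_cast h2
    rw [ZMod.natCast_eq_zero_iff] at h2'
    have := Nat.le_of_dvd (by norm_num) h2'
    omega
  let f : ZMod p → ZMod p := fun t => if t = 0 then 1 else if t = 1 then -1 else 0
  have hf : ∑ t, f t = 0 := by
    have h1 : ∀ t, f t = (if t = 0 then 1 else 0) + (if t = 1 then -1 else 0) := by
      intro t
      simp only [f]
      by_cases ht : t = 0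
      · subst ht; simp
      · simp [ht]
    rw [sum_congr rfl fun t _ => h1 t, sum_add_distrib]
    simp
  refine ⟨⟨⟨fun _ => 0, 1⟩, by rw [mem_X]; simp⟩, ⟨⟨f, 0⟩, by rw [mem_X]; exact hf⟩, ?_⟩
  intro h
  have h2 : (⟨fun _ => 0, 1⟩ : W p) * ⟨f, 0⟩ = ⟨f, 0⟩ * ⟨fun _ => 0, 1⟩ := congrArg Subtype.val h
  have h4 := congrArg (fun a : W p => a.f 0) h2
  simp [f, hm10, hm11] at h4

/-- an element of order `p ^ 2` -/
lemma W_order : ∃ g : W p, orderOf g = p ^ 2 := by
  refine ⟨⟨Pi.single 0 1, 1⟩, ?_⟩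
  set g : W p := ⟨Pi.single 0 1, 1⟩ with hg
  have hgp : g ^ p = ⟨fun _ => 1, 0⟩ := by
    ext t
    · rw [pow_f]
      have h2 : ∑ i ∈ range p, g.f (t - i * g.c) = ∑ i : ZMod p, g.f (t - i * g.c) := by
        refine Finset.sum_bij (fun (i : ℕ) _ => (i : ZMod p)) (fun _ _ => mem_univ _) ?_ ?_ ?_
        · intro i hi j hj hij
          rw [mem_range] at hi hj
          have := (ZMod.natCast_eq_natCast_iff' i j p).mp hij
          rwa [Nat.mod_eq_of_lt hi, Nat.mod_eq_of_lt hj] at this
        · intro s _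
          exact ⟨s.val, mem_range.mpr (ZMod.val_lt s), ZMod.natCast_zmod_val s⟩
        · intro i _
          rfl
      rw [h2, Finset.sum_eq_single t]
      · simp [hg]
      · intro b _ hb
        have : t - b ≠ 0 := sub_ne_zero.mpr (Ne.symm hb)
        simp [hg, this]
      · simp
    · rw [pow_c]; simp
  have h1 : g ^ p ^ 2 = 1 := by
    rw [pow_two, pow_mul, hgp]
    ext t
    · rw [pow_f]; simp
    · rw [pow_c]; simp
  have h2 : ¬ g ^ p ^ 1 = 1 := by
    rw [pow_one, hgp]
    intro h
    have := congrArg (fun a : W p => a.f 0) h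
    simp at this
  exact orderOf_eq_prime_pow h2 h1

/-- Groups of exponent dividing `p` are LCM-groups. -/
lemma lcm_of_exp {G : Type} [Group G] (h : ∀ x : G, x ^ p = 1) : IsLCMGroup G := by
  intro x n y
  have key : ∀ z : G, z ≠ 1 → orderOf z = p := fun z hz => orderOf_eq_prime (h z) hz
  by_cases h1 : x ^ n = 1
  · rw [h1, one_mul]
    exact Nat.dvd_lcm_right _ _
  · rw [key _ h1]
    exact (orderOf_dvd_of_pow_eq_one (h _)).trans (Nat.dvd_lcm_left _ _)

lemma lcm_of_comm {G : Type} [CommGroup G] : IsLCMGroup G := fun _ _ _ =>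
  (Commute.all _ _).orderOf_mul_dvd_lcm

/-- elementary abelian group of order `p ^ (p + m)` -/
abbrev E (p m : ℕ) : Type :=
  Multiplicative (ZMod p → ZMod p) × Multiplicative (Fin m → ZMod p)

/-- the group `X × C_p ^ m` -/
abbrev Y (p : ℕ) [Fact p.Prime] (m : ℕ) : Type := X p × Multiplicative (Fin m → ZMod p)

/-- the cyclic group of order `p ^ 2` -/
abbrev C (p : ℕ) : Type := Multiplicative (ZMod (p ^ 2))

instance : NeZero (p ^ 2) := ⟨pow_ne_zero 2 hp.out.ne_zero⟩

instance : Finite (C p) := inferInstanceAs (Finite (ZMod (p ^ 2)))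

instance {m : ℕ} : Finite (Multiplicative (Fin m → ZMod p)) :=
  inferInstanceAs (Finite (Fin m → ZMod p))

instance : Finite (Multiplicative (ZMod p → ZMod p)) :=
  inferInstanceAs (Finite (ZMod p → ZMod p))

/-- The family. -/
def F (p : ℕ) [Fact p.Prime] (m : ℕ) : Set FiniteGrp.{0} :=
  {FiniteGrp.of (E p m), FiniteGrp.of (Y p m), FiniteGrp.of (C p)}

lemma card_Em (m : ℕ) : Nat.card (Multiplicative (Fin m → ZMod p)) = p ^ m := by
  rw [Nat.card_congr (Multiplicative.toAdd), Nat.card_pi]
  simp [Nat.card_zmod]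

lemma card_E (m : ℕ) : Nat.card (E p m) = p ^ (p + m) := by
  rw [Nat.card_prod, card_Em, Nat.card_congr (Multiplicative.toAdd), Nat.card_pi]
  simp [Nat.card_zmod, pow_add]

lemma card_Y (m : ℕ) : Nat.card (Y p m) = p ^ (p + m) := by
  rw [Nat.card_prod, card_Em, card_X, pow_add]

lemma Em_pow (m : ℕ) (x : Multiplicative (Fin m → ZMod p)) : x ^ p = 1 := by
  apply Multiplicative.toAdd.injective
  rw [toAdd_pow, toAdd_one]
  ext i
  simp

lemma E_pow (m : ℕ) (x : E p m) : x ^ p = 1 := by
  apply Prod.ext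
  · rw [Prod.pow_fst, Prod.fst_one]
    apply Multiplicative.toAdd.injective
    rw [toAdd_pow, toAdd_one]
    ext i
    simp
  · exact Em_pow m _

lemma Y_pow (m : ℕ) (x : Y p m) : x ^ p = 1 := by
  apply Prod.ext
  · rw [Prod.pow_fst, Prod.fst_one]
    apply Subtype.ext
    exact X_pow _ x.1.2
  · exact Em_pow m _

/-- In a small cover, every element is a product of two elements of order dividing `p`. -/
lemma product_of_small {G : Type} [Group G] [Finite G] {N k : ℕ} (hN : N = p ^ k)
    (A B : Subgroup G) (hA : Nat.card A = N) (hB : Nat.card B = N) (hG : Nat.card G ≤ p * N)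
    (hBA : ¬ B ≤ A) (z : G) : ∃ b ∈ B, ∃ a ∈ A, z = b * a := by
  classical
  have hNpos : 0 < N := by rw [hN]; exact pow_pos hp.out.pos _
  have hindex : A.index ≤ p := by
    have := A.card_mul_index
    rw [hA] at this
    by_contra h
    push Not at h
    have h1 : N * p < N * A.index := Nat.mul_lt_mul_of_pos_left h hNpos
    rw [this, mul_comm] at h1
    omega
  have := Fintype.ofFinite B
  have := Fintype.ofFinite (G ⧸ A)
  let x₀ : G ⧸ A := ((1 : G) : G ⧸ A)
  have horb := MulAction.card_orbit_mul_card_stabilizer_eq_card_group B x₀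
  have hdvd : Fintype.card (MulAction.orbit B x₀) ∣ p ^ k := by
    rw [← hN, ← hB, Nat.card_eq_fintype_card]
    exact ⟨_, horb.symm⟩
  obtain ⟨j, -, hj⟩ := (Nat.dvd_prime_pow hp.out).mp hdvd
  have hj0 : j ≠ 0 := by
    rintro rfl
    rw [pow_zero, Fintype.card_eq_one_iff] at hj
    obtain ⟨y, hy⟩ := hj
    apply hBA
    intro b hb
    have h1 := hy ⟨(⟨b, hb⟩ : B) • x₀, MulAction.mem_orbit _ _⟩
    have h2 := hy ⟨x₀, MulAction.mem_orbit_self _⟩
    have h3 : (⟨b, hb⟩ : B) • x₀ = x₀ := congrArg Subtype.val (h1.trans h2.symm)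
    have h4 : ((b * 1 : G) : G ⧸ A) = ((1 : G) : G ⧸ A) := h3
    rw [mul_one] at h4
    have h5 := QuotientGroup.eq.mp h4.symm
    simpa using h5
  have hle : p ≤ Fintype.card (MulAction.orbit B x₀) := by
    rw [hj]
    exact Nat.le_self_pow hj0 p
  have huniv : MulAction.orbit B x₀ = Set.univ := by
    rw [← Set.toFinset_eq_univ, ← Finset.card_eq_iff_eq_univ, Set.toFinset_card]
    apply le_antisymm (set_fintype_card_le_univ _)
    calc Fintype.card (G ⧸ A) = A.index := by
          rw [← Nat.card_eq_fintype_card]; rfl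
      _ ≤ p := hindex
      _ ≤ _ := hle
  have hz : ((z : G) : G ⧸ A) ∈ MulAction.orbit B x₀ := by rw [huniv]; trivial
  obtain ⟨b, hb⟩ := hz
  have h4 : ((b.1 * 1 : G) : G ⧸ A) = ((z : G) : G ⧸ A) := hb
  rw [mul_one] at h4
  have h5 := QuotientGroup.eq.mp h4
  exact ⟨b.1, b.2, b.1⁻¹ * z, h5, by group⟩

/-- A cover of order at most `p ^ (p + m + 1)` is not an LCM-group. -/
lemma not_lcm_of_cover (h3 : 3 ≤ p) {m : ℕ} {G : FiniteGrp.{0}} (hG : IsCover (F p m) G)
    (hcard : Nat.card G ≤ p * p ^ (p + m)) : ¬ IsLCMGroup G := by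
  intro hlcm
  obtain ⟨A, ⟨eA⟩⟩ : ∃ A : Subgroup G, Nonempty (E p m ≃* A) :=
    hG (FiniteGrp.of (E p m)) (by simp [F])
  obtain ⟨B, ⟨eB⟩⟩ : ∃ B : Subgroup G, Nonempty (Y p m ≃* B) :=
    hG (FiniteGrp.of (Y p m)) (by simp [F])
  obtain ⟨D, ⟨eD⟩⟩ : ∃ D : Subgroup G, Nonempty (C p ≃* D) :=
    hG (FiniteGrp.of (C p)) (by simp [F])
  have hA : Nat.card A = p ^ (p + m) := by
    rw [← card_E m]; exact (Nat.card_congr eA.toEquiv).symm
  have hB : Nat.card B = p ^ (p + m) := by
    rw [← card_Y m]; exact (Nat.card_congr eB.toEquiv).symm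
  have hAp : ∀ a ∈ A, a ^ p = 1 := by
    intro a ha
    have h1 : eA.symm ⟨a, ha⟩ ^ p = 1 := E_pow m _
    have h2 := congrArg eA h1
    rw [map_pow, MulEquiv.apply_symm_apply, map_one] at h2
    exact congrArg Subtype.val h2
  have hBp : ∀ b ∈ B, b ^ p = 1 := by
    intro b hb
    have h1 : eB.symm ⟨b, hb⟩ ^ p = 1 := Y_pow m _
    have h2 := congrArg eB h1
    rw [map_pow, MulEquiv.apply_symm_apply, map_one] at h2
    exact congrArg Subtype.val h2
  have hAcomm : ∀ a ∈ A, ∀ b ∈ A, a * b = b * a := by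
    intro a ha b hb
    have h1 : eA.symm ⟨a, ha⟩ * eA.symm ⟨b, hb⟩ =
        eA.symm ⟨b, hb⟩ * eA.symm ⟨a, ha⟩ := mul_comm _ _
    have h2 : eA.symm (⟨a, ha⟩ * ⟨b, hb⟩) = eA.symm (⟨b, hb⟩ * ⟨a, ha⟩) := by
      rw [map_mul, map_mul]
      exact h1
    exact congrArg Subtype.val (eA.symm.injective h2)
  have hBA : ¬ B ≤ A := by
    intro hle
    obtain ⟨a, b, hab⟩ := X_noncomm h3
    apply hab
    have h1 := hAcomm _ (hle (eB ((a, 1) : Y p m)).2) _ (hle (eB ((b, 1) : Y p m)).2)
    have h2 : eB ((a, 1) : Y p m) * eB ((b, 1) : Y p m) =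
        eB ((b, 1) : Y p m) * eB ((a, 1) : Y p m) := Subtype.ext h1
    have h3' : eB (((a, 1) : Y p m) * ((b, 1) : Y p m)) =
        eB (((b, 1) : Y p m) * ((a, 1) : Y p m)) := by
      rw [map_mul, map_mul]
      exact h2
    have h4 := eB.injective h3'
    exact congrArg Prod.fst h4
  -- an element of order `p ^ 2`
  let c : D := eD (Multiplicative.ofAdd (1 : ZMod (p ^ 2)))
  have hc : (c : G) ^ p ≠ 1 := by
    intro h
    have h1 : c ^ p = 1 := Subtype.ext (by simpa using h)
    have h2 : eD ((Multiplicative.ofAdd (1 : ZMod (p ^ 2)) : C p) ^ p) = eD 1 := by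
      rw [map_pow eD, map_one eD]
      exact h1
    have h3' := eD.injective h2
    have h4 : ((p : ℕ) : ZMod (p ^ 2)) = 0 := by
      have h5 : Multiplicative.toAdd ((Multiplicative.ofAdd (1 : ZMod (p ^ 2)) : C p) ^ p) =
        Multiplicative.toAdd (1 : C p) := congrArg _ h3'
      rw [toAdd_pow, toAdd_one, toAdd_ofAdd, nsmul_eq_mul, mul_one] at h5
      exact h5
    rw [ZMod.natCast_eq_zero_iff] at h4
    have h6 := Nat.le_of_dvd hp.out.pos h4
    have h7 : p * p ≤ p * 1 := by rw [mul_one, ← pow_two]; exact h6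
    have h8 := Nat.le_of_mul_le_mul_left h7 hp.out.pos
    have := hp.out.two_le
    omega
  obtain ⟨b, hb, a, ha, hba⟩ := product_of_small (p := p) rfl A B hA hB hcard hBA (c : G)
  have h1 := hlcm b 1 a
  rw [pow_one, ← hba] at h1
  apply hc
  have h2 : Nat.lcm (orderOf b) (orderOf a) ∣ p :=
    Nat.lcm_dvd (orderOf_dvd_of_pow_eq_one (hBp b hb)) (orderOf_dvd_of_pow_eq_one (hAp a ha))
  exact orderOf_dvd_iff_pow_eq_one.mp (h1.trans h2)

/-- The cover `(C_p wr C_p) × C_p ^ m`. -/
lemma exists_cover (m : ℕ) : ∃ G : FiniteGrp.{0}, IsCover (F p m) G ∧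
    Nat.card G = p * p ^ (p + m) := by
  refine ⟨FiniteGrp.of (W p × Multiplicative (Fin m → ZMod p)), ?_, ?_⟩
  · intro K hK
    simp only [F, Set.mem_insert_iff, Set.mem_singleton_iff] at hK
    rcases hK with rfl | rfl | rfl
    · let φ : E p m →* W p × Multiplicative (Fin m → ZMod p) :=
        { toFun := fun x => (⟨Multiplicative.toAdd x.1, 0⟩, x.2)
          map_one' := rfl
          map_mul' := by
            intro x y
            apply Prod.ext
            · ext t
              · simp
              · simp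
            · rfl }
      have hφ : Function.Injective φ := by
        intro x y hxy
        have h1 := congrArg Prod.fst hxy
        have h2 := congrArg Prod.snd hxy
        apply Prod.ext
        · have h3 := congrArg W.f h1
          exact Multiplicative.toAdd.injective h3
        · exact h2
      exact ⟨φ.range, ⟨φ.ofInjective hφ⟩⟩
    · let φ : Y p m →* W p × Multiplicative (Fin m → ZMod p) :=
        MonoidHom.prodMap (X p).subtype (MonoidHom.id _)
      have hφ : Function.Injective φ := by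
        intro x y hxy
        have h1 := congrArg Prod.fst hxy
        have h2 := congrArg Prod.snd hxy
        exact Prod.ext (Subtype.ext h1) h2
      exact ⟨φ.range, ⟨φ.ofInjective hφ⟩⟩
    · obtain ⟨g, hg⟩ := W_order (p := p)
      let h : W p × Multiplicative (Fin m → ZMod p) := (g, 1)
      have hh : orderOf h = p ^ 2 := by
        rw [Prod.orderOf, hg]
        simp [h]
      refine ⟨Subgroup.zpowers h, ?_⟩
      have hcard : Nat.card (C p) = Nat.card (Subgroup.zpowers h) := by
        rw [Nat.card_zpowers, hh, Nat.card_congr (Multiplicative.toAdd), Nat.card_zmod]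
      have hcyc : IsCyclic (C p) := inferInstance
      have e : C p ≃* Subgroup.zpowers h := mulEquivOfCyclicCardEq hcard
      exact ⟨e⟩
  · change Nat.card (W p × Multiplicative (Fin m → ZMod p)) = _
    rw [Nat.card_prod, card_W, card_Em]
    ring

lemma exists_min (m : ℕ) : ∃ G : FiniteGrp.{0}, IsMinimumCover (F p m) G := by
  classical
  obtain ⟨G₀, hG₀, -⟩ := exists_cover (p := p) m
  have hex : ∃ n, ∃ G : FiniteGrp.{0}, IsCover (F p m) G ∧ Nat.card G = n := ⟨_, G₀, hG₀, rfl⟩
  obtain ⟨G, hG, hn⟩ := Nat.find_spec hex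
  refine ⟨G, hG, ?_⟩
  intro K hK
  rw [hn]
  exact Nat.find_min' hex ⟨K, hK, rfl⟩

lemma min_not_lcm (h3 : 3 ≤ p) {m : ℕ} {G : FiniteGrp.{0}} (hG : IsMinimumCover (F p m) G) :
    ¬ IsLCMGroup G := by
  obtain ⟨K, hK, hcard⟩ := exists_cover (p := p) m
  exact not_lcm_of_cover h3 hG.1 ((hG.2 K hK).trans hcard.le)

lemma F_members (m : ℕ) (K : FiniteGrp.{0}) (hK : K ∈ F p m) :
    IsPGroup p K ∧ IsLCMGroup K := by
  simp only [F, Set.mem_insert_iff, Set.mem_singleton_iff] at hK
  rcases hK with rfl | rfl | rfl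
  · refine ⟨?_, lcm_of_exp (p := p) (E_pow m)⟩
    intro g
    exact ⟨1, by rw [pow_one]; exact E_pow m g⟩
  · refine ⟨?_, lcm_of_exp (p := p) (Y_pow m)⟩
    intro g
    exact ⟨1, by rw [pow_one]; exact Y_pow m g⟩
  · refine ⟨?_, lcm_of_comm (G := C p)⟩
    change IsPGroup p (C p)
    rw [IsPGroup.iff_card]
    exact ⟨2, by rw [Nat.card_congr (Multiplicative.toAdd), Nat.card_zmod]⟩

lemma F_not_same (h3 : 3 ≤ p) {m n : ℕ} (hmn : m ≠ n) : ¬ SameUpToIso (F p m) (F p n) := by
  rintro ⟨h1, -⟩
  obtain ⟨K, hK, ⟨e⟩⟩ := h1 (FiniteGrp.of (E p m)) (by simp [F])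
  have hcard : p ^ (p + m) = Nat.card K := by
    rw [← card_E m]; exact Nat.card_congr e.toEquiv
  simp only [F, Set.mem_insert_iff, Set.mem_singleton_iff] at hK
  have hinj := Nat.pow_right_injective hp.out.two_le
  rcases hK with rfl | rfl | rfl
  · have h2 : Nat.card (E p n) = p ^ (p + n) := card_E n
    have h4 : p ^ (p + m) = p ^ (p + n) := hcard.trans h2
    have := hinj h4
    omega
  · have h2 : Nat.card (Y p n) = p ^ (p + n) := card_Y n
    have h4 : p ^ (p + m) = p ^ (p + n) := hcard.trans h2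
    have := hinj h4
    omega
  · have h2 : Nat.card (C p) = p ^ 2 := by
      rw [Nat.card_congr (Multiplicative.toAdd), Nat.card_zmod]
    have h4 : p ^ (p + m) = p ^ 2 := hcard.trans h2
    have := hinj h4
    omega

lemma F_finite (m : ℕ) : (F p m).Finite := by
  unfold F
  exact Set.toFinite _

end prime

end Q17.LCM
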